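import Pool.Agent.H902R2.HO.Stubs2

/-!
ROOM HO, task CPT (helper790): the compactness part (`St_CPT`, `St_OFF0`, `St_OFF1`).
-/

open Topology

namespace H790HO

open H902HO

theorem CPT_set (G ρ : ℝ) : {d : DD | IsPl d ∧ gg d ≤ G ∧ ρ ≤ dist0 d} =
    {d : DD | T.dot (dx1 d) (dx1 d) = 1} ∩ {d : DD | T.dot (dx2 d) (dx2 d) = 1} ∩
    {d : DD | T.dot (dx1 d) (dx2 d) = 0} ∩
    {d : DD | T.dot (dy1 d) (dy1 d) = 1} ∩ {d : DD | T.dot (dy2 d) (dy2 d) = 1} ∩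
    {d : DD | T.dot (dy1 d) (dy2 d) = 0} ∩
    {d : DD | d 12 ^ 2 + d 13 ^ 2 = 1} ∩ {d : DD | d 14 ^ 2 + d 15 ^ 2 = 1} ∩
    {d : DD | 0 ≤ d 12} ∩ {d : DD | 0 ≤ d 14} ∩ {d : DD | d 15 ^ 2 ≤ d 12 ^ 2} ∩
    {d : DD | 0 ≤ (dy3 d).z} ∩ {d : DD | gg d ≤ G} ∩ {d : DD | ρ ≤ dist0 d} := by
  ext d
  simp only [Set.mem_inter_iff, Set.mem_setOf_eq]
  constructor
  · rintro ⟨h, hG, hρ⟩
    exact ⟨⟨⟨⟨⟨⟨⟨⟨⟨⟨⟨⟨⟨h.fx.d11, h.fx.d22⟩, h.fx.d12⟩, h.fy.d11⟩, h.fy.d22⟩, h.fy.d12⟩, h.ha⟩, h.hb⟩,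
      h.ca0⟩, h.cb0⟩, h.hs⟩, h.hz⟩, hG⟩, hρ⟩
  · rintro ⟨⟨⟨⟨⟨⟨⟨⟨⟨⟨⟨⟨⟨h1, h2⟩, h3⟩, h4⟩, h5⟩, h6⟩, h7⟩, h8⟩, h9⟩, h10⟩, h11⟩, h12⟩, h13⟩, h14⟩
    exact ⟨⟨⟨h1, h2, h3, rfl⟩, ⟨h4, h5, h6, rfl⟩, h7, h8, h9, h10, h11, h12⟩, h13, h14⟩

theorem cont_dy3z : Continuous fun d : DD => (dy3 d).z := by
  have : (fun d : DD => (dy3 d).z) = fun d => d 6 * d 10 - d 7 * d 9 := by
    funext d; rfl
  rw [this]; fun_prop

theorem cont_gg : Continuous fun d : DD => gg d := by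
  have : (fun d : DD => gg d) = fun d => d 16 ^ 2 + d 17 ^ 2 + d 18 ^ 2 + d 19 ^ 2 := by
    funext d; rfl
  rw [this]; fun_prop

theorem cont_dist0 : Continuous fun d : DD => dist0 d := by
  have : (fun d : DD => dist0 d) =
      fun d => 2 * (1 - (dy3 d).z ^ 2) + d 13 ^ 2 + d 15 ^ 2 + gg d := by
    funext d; rfl
  have h1 := cont_dy3z
  have h2 := cont_gg
  rw [this]; fun_prop

theorem CPT_closed (G ρ : ℝ) : IsClosed {d : DD | IsPl d ∧ gg d ≤ G ∧ ρ ≤ dist0 d} := by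
  rw [CPT_set]
  have hdot : ∀ (i j k i' j' k' : Fin 20), Continuous fun d : DD =>
      T.dot (⟨d i, d j, d k⟩ : T ℝ) ⟨d i', d j', d k'⟩ := by
    intro i j k i' j' k'
    have : (fun d : DD => T.dot (⟨d i, d j, d k⟩ : T ℝ) ⟨d i', d j', d k'⟩) =
        fun d => d i * d i' + d j * d j' + d k * d k' := by
      funext d; rfl
    rw [this]; fun_prop
  refine (((((((((((((?_ : IsClosed _).inter ?_).inter ?_).inter ?_).inter ?_).inter ?_).inter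
    ?_).inter ?_).inter ?_).inter ?_).inter ?_).inter ?_).inter ?_).inter ?_
  · exact isClosed_eq (hdot 0 1 2 0 1 2) continuous_const
  · exact isClosed_eq (hdot 3 4 5 3 4 5) continuous_const
  · exact isClosed_eq (hdot 0 1 2 3 4 5) continuous_const
  · exact isClosed_eq (hdot 6 7 8 6 7 8) continuous_const
  · exact isClosed_eq (hdot 9 10 11 9 10 11) continuous_const
  · exact isClosed_eq (hdot 6 7 8 9 10 11) continuous_const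
  · exact isClosed_eq (by fun_prop) continuous_const
  · exact isClosed_eq (by fun_prop) continuous_const
  · exact isClosed_le continuous_const (by fun_prop)
  · exact isClosed_le continuous_const (by fun_prop)
  · exact isClosed_le (by fun_prop) (by fun_prop)
  · exact isClosed_le continuous_const cont_dy3z
  · exact isClosed_le cont_gg continuous_const
  · exact isClosed_le continuous_const cont_dist0

theorem abs_le_of_sq_le {x G : ℝ} (h : x ^ 2 ≤ 1 + |G|) : -(1 + |G|) ≤ x ∧ x ≤ 1 + |G| := by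
  have h0 := abs_nonneg G
  constructor <;> nlinarith

theorem CPT_bounded (G ρ : ℝ) (d : DD) (hd : IsPl d ∧ gg d ≤ G ∧ ρ ≤ dist0 d) :
    d ∈ Set.Icc (fun _ => -(1 + |G|)) (fun _ => 1 + |G|) := by
  obtain ⟨h, hG, -⟩ := hd
  have h0 := abs_nonneg G
  have hG' : G ≤ |G| := le_abs_self G
  have e1 : d 0 ^ 2 + d 1 ^ 2 + d 2 ^ 2 = 1 := by
    have := h.fx.d11
    simp only [T.dot, dx1] at this
    linarith
  have e2 : d 3 ^ 2 + d 4 ^ 2 + d 5 ^ 2 = 1 := by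
    have := h.fx.d22
    simp only [T.dot, dx2] at this
    linarith
  have e3 : d 6 ^ 2 + d 7 ^ 2 + d 8 ^ 2 = 1 := by
    have := h.fy.d11
    simp only [T.dot, dy1] at this
    linarith
  have e4 : d 9 ^ 2 + d 10 ^ 2 + d 11 ^ 2 = 1 := by
    have := h.fy.d22
    simp only [T.dot, dy2] at this
    linarith
  have e5 := h.ha
  have e6 := h.hb
  have e7 : d 16 ^ 2 + d 17 ^ 2 + d 18 ^ 2 + d 19 ^ 2 ≤ G := hG
  have key : ∀ i : Fin 20, d i ^ 2 ≤ 1 + |G| := by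
    have s := fun i : Fin 20 => sq_nonneg (d i)
    intro i
    fin_cases i
    all_goals
      simp only [Fin.reduceFinMk, Fin.zero_eta, Fin.isValue, Fin.mk_one]
      linarith [s 0, s 1, s 2, s 3, s 4, s 5, s 6, s 7, s 8, s 9, s 10, s 11, s 12, s 13, s 14,
        s 15, s 16, s 17, s 18, s 19]
  rw [Set.mem_Icc, Pi.le_def, Pi.le_def]
  exact ⟨fun i => (abs_le_of_sq_le (key i)).1, fun i => (abs_le_of_sq_le (key i)).2⟩

/-- the set of planes is compact -/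
theorem CPT : St_CPT := fun G ρ =>
  IsCompact.of_isClosed_subset isCompact_Icc (CPT_closed G ρ) (fun d hd => CPT_bounded G ρ d hd)

/-- the Cheeger metric has positive curvature away from the zero set -/
theorem FD_zero_pos (hT5 : St_T5) (hFR1 : St_FR1) {ρ : ℝ} (hρ : 0 < ρ) (d : DD) (h : IsPl d)
    (hd : ρ ≤ dist0 d) : 0 < FD 0 0 0 d := by
  by_contra hneg
  rw [not_lt] at hneg
  have e : frS (W0 0) (dx1 d) (dx2 d) (dx3 d) = one3 := by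
    rw [hFR1 0 _ _ _ h.fx]
    simp [one3]
  have h1 : PPn 0 1 one3 (frS Q0 (dx1 d) (dx2 d) (dx3 d)) (frV v0 (dx1 d) (dx2 d) (dx3 d)) 0 0
      (dy1 d) (dy2 d) (dy3 d) (d 12) (d 13) (d 14) (d 15) (d 16) (d 17) (d 18) (d 19) ≤ 0 := by
    rw [← e]
    exact hneg
  obtain ⟨a1, a2, a3, a4, a5, a6, a7⟩ := hT5 _ _ _ _ _ _ _ _ _ _ _ _ _ h.fy h.ha h.hb h.ca0
    h.cb0 h.hs h.hz h1
  have h2 : dist0 d = 0 := by
    simp only [dist0, gg, a1, a2, a3, a4, a5, a6, a7]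
    norm_num
  linarith

/-- positivity on a compact set persists -/
theorem off_abs {K : Set DD} (hK : IsCompact K) (F : ℝ → DD → ℝ)
    (hF : Continuous (fun p : ℝ × DD => F p.1 p.2)) (hpos : ∀ d ∈ K, 0 < F 0 d) :
    ∃ δ : ℝ, 0 < δ ∧ ∀ μ, 0 ≤ μ → μ ≤ δ → ∀ d ∈ K, 0 < F μ d := by
  have hev := hK.eventually_forall_of_forall_eventually (x₀ := (0 : ℝ))
    (P := fun μ d => 0 < F μ d) (fun d hd =>
      (hF.continuousAt (x := ((0 : ℝ), d))).eventually (lt_mem_nhds (hpos d hd)))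
  obtain ⟨δ, hδ, h⟩ := Metric.eventually_nhds_iff.1 hev
  refine ⟨δ / 2, by positivity, fun μ h0 h1 d hd => ?_⟩
  refine h (y := μ) ?_ d hd
  rw [Real.dist_eq, sub_zero, abs_of_nonneg h0]
  linarith

theorem comp_abs (F : ℝ → ℝ → ℝ → DD → ℝ)
    (hF : Continuous (fun p : ℝ × ℝ × ℝ × DD => F p.1 p.2.1 p.2.2.1 p.2.2.2)) (a b c : ℝ → ℝ)
    (ha : Continuous a) (hb : Continuous b) (hc : Continuous c) :
    Continuous (fun p : ℝ × DD => F (a p.1) (b p.1) (c p.1) p.2) :=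
  hF.comp (by fun_prop : Continuous fun p : ℝ × DD => (a p.1, b p.1, c p.1, p.2))

theorem off0_abs (F : ℝ → ℝ → ℝ → DD → ℝ)
    (hF : Continuous (fun p : ℝ × ℝ × ℝ × DD => F p.1 p.2.1 p.2.2.1 p.2.2.2)) (G ρ : ℝ)
    (hpos : ∀ d : DD, IsPl d → ρ ≤ dist0 d → 0 < F 0 0 0 d) :
    ∃ μ₂ : ℝ, 0 < μ₂ ∧ ∀ μ, 0 ≤ μ → μ ≤ μ₂ → ∀ d : DD,
      IsPl d → gg d ≤ G → ρ ≤ dist0 d → 0 < F μ 0 0 d := by
  obtain ⟨δ, hδ, h⟩ := off_abs (CPT G ρ) (fun μ d => F μ 0 0 d)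
    (comp_abs F hF (fun x => x) (fun _ => 0) (fun _ => 0) continuous_id continuous_const
      continuous_const) (fun d hd => hpos d hd.1 hd.2.2)
  exact ⟨δ, hδ, fun μ h0 h1 d hd hG hρ' => h μ h0 h1 d ⟨hd, hG, hρ'⟩⟩

theorem off1_abs (F : ℝ → ℝ → ℝ → DD → ℝ)
    (hF : Continuous (fun p : ℝ × ℝ × ℝ × DD => F p.1 p.2.1 p.2.2.1 p.2.2.2)) (G ρ μ lam : ℝ)
    (hpos : ∀ d : DD, IsPl d → gg d ≤ G → ρ ≤ dist0 d → 0 < F μ 0 0 d) :
    ∃ ε₁ : ℝ, 0 < ε₁ ∧ ∀ ε, 0 ≤ ε → ε ≤ ε₁ → ∀ d : DD, IsPl d → gg d ≤ G → ρ ≤ dist0 d →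
      0 < F μ ε (lam * ε ^ 2) d := by
  obtain ⟨δ, hδ, h⟩ := off_abs (CPT G ρ) (fun ε d => F μ ε (lam * ε ^ 2) d)
    (comp_abs F hF (fun _ => μ) (fun x => x) (fun x => lam * x ^ 2) continuous_const continuous_id
      (by fun_prop)) (fun d hd => by
        have h0 := hpos d hd.1 hd.2.1 hd.2.2
        have e : lam * (0 : ℝ) ^ 2 = 0 := by ring
        show 0 < F μ 0 (lam * 0 ^ 2) d
        rw [e]
        exact h0)
  exact ⟨δ, hδ, fun ε h0 h1 d hd hG hρ' => h ε h0 h1 d ⟨hd, hG, hρ'⟩⟩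

/-- `St_OFF0` -/
theorem OFF0 (hT5 : St_T5) (hFR1 : St_FR1) (hc : St_CONT1) : St_OFF0 :=
  fun G ρ hρ => off0_abs FD hc G ρ (fun d h hd => FD_zero_pos hT5 hFR1 hρ d h hd)

/-- `St_OFF1` -/
theorem OFF1 (hc : St_CONT1) : St_OFF1 :=
  fun G ρ μ lam hpos => off1_abs FD hc G ρ μ lam hpos

end H790HO
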